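import Pool.Agent.V11182.SatBounded

/-!
# The induced saturation number of a union of chains, not all of the same length, is bounded
-/

namespace Pool.Agent.Results.MP_80cf42_co.Bounded

open Finset Pool.Agent.V11182.SatBase Pool.Agent.V11182.SatBounded

/-- the induced saturation number `sat*(n, P)`: the least size of an induced `P`-saturated family
of subsets of an `n`-set -/
noncomputable def satNum (P : Type) [PartialOrder P] (n : ℕ) : ℕ :=
  sInf {c | ∃ F : Finset (Finset (Fin n)), IsSaturated P F ∧ F.card = c}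

/-- the disjoint union of chains `C_{i 0} + ⋯ + C_{i (m - 1)}` (elements of different chains are
incomparable) -/
abbrev ChainSum {m : ℕ} (i : Fin m → ℕ) : Type := Σ j : Fin m, Fin (i j)

/-- subsets of a union of two blocks -/
def splitIso (w v : ℕ) : Finset (Fin w) × Finset (Fin v) ≃o Finset (Fin (w + v)) :=
  (Finset.sumEquiv (α := Fin w) (β := Fin v)).symm.trans
    { toEquiv := finSumFinEquiv.finsetCongr
      map_rel_iff' := by
        intro a b
        simp only [Equiv.finsetCongr_apply]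
        exact map_subset_map }

/-- subsets of a union of three blocks -/
def splitIso3 (u w v : ℕ) :
    Finset (Fin u) × Finset (Fin w) × Finset (Fin v) ≃o Finset (Fin (u + (w + v))) :=
  OrderIso.trans
    { toEquiv := Equiv.prodCongr (Equiv.refl (Finset (Fin u))) (splitIso w v).toEquiv
      map_rel_iff' := by
        rintro ⟨a, b⟩ ⟨a', b'⟩
        constructor
        · rintro ⟨h1, h2⟩
          exact ⟨h1, (splitIso w v).map_rel_iff.1 h2⟩
        · rintro ⟨h1, h2⟩
          exact ⟨h1, (splitIso w v).map_rel_iff.2 h2⟩ }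
    (splitIso u (w + v))

lemma sat_of_blocks {m : ℕ} (i : Fin m → ℕ) (k v : ℕ) (hk : 1 ≤ k) (hv : 1 ≤ v)
    (hik : ∀ j, i j ≤ k) (j0 jm : Fin m) (hj0 : i j0 = k) (hjm : i jm < k) (hjm1 : 1 ≤ i jm) :
    ∃ F : Finset (Finset (Fin (m + ((2 * m + k + 2) + v)))), IsSaturated (ChainSum i) F ∧
      F.card ≤ 2 ^ m * (2 ^ (2 * m + k + 2) * 2) := by
  classical
  obtain ⟨F, hF, hFE⟩ := exists_sat (ChainSum i) _ _
    (base_sub (k := k) (v := v) ((univ.erase j0).filter (fun j => i j = k)))
    (free hv hk i j0 jm hj0 hjm hjm1) (by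
      rintro ⟨T0, T1, X⟩ hG
      have hX : X ≠ ∅ ∧ X ≠ univ := by
        constructor
        · rintro rfl
          exact hG (by simp)
        · rintro rfl
          exact hG (by simp)
      exact creates hv hk i hik j0 T0 T1 X hX.1 hX.2)
  refine ⟨_, hF.map (splitIso3 m (2 * m + k + 2) v), ?_⟩
  rw [card_map]
  refine (card_le_card hFE).trans ?_
  rw [card_product, card_product]
  have h1 : (univ : Finset (Finset (Fin m))).card = 2 ^ m := by simp
  have h2 : (univ : Finset (Finset (Fin (2 * m + k + 2)))).card = 2 ^ (2 * m + k + 2) := by simp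
  rw [h1, h2]
  exact Nat.mul_le_mul_left _ (Nat.mul_le_mul_left _ card_le_two)

/-- **Answer to Q1 (yes).** For all `i 0, …, i (m - 1) ≥ 1` that are not all equal there is a
constant `C` such that `sat*(n, C_{i 0} + ⋯ + C_{i (m - 1)}) ≤ C` for every `n` (the set of sizes
of saturated families being nonempty). -/
theorem result (m : ℕ) (i : Fin m → ℕ) (hi : ∀ j, 1 ≤ i j) (hne : ∃ j j', i j < i j') :
    ∃ C : ℕ, ∀ n : ℕ,
      (∃ F : Finset (Finset (Fin n)), IsSaturated (ChainSum i) F) ∧
        satNum (ChainSum i) n ≤ C := by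
  classical
  obtain ⟨jm, jM, hlt⟩ := hne
  obtain ⟨j0, -, hj0⟩ := exists_max_image (univ : Finset (Fin m)) i ⟨jm, mem_univ _⟩
  have hmax : ∀ j, i j ≤ i j0 := fun j => hj0 j (mem_univ _)
  set k := i j0 with hkdef
  have hk : 1 ≤ k := hi j0
  have hjm : i jm < k := lt_of_lt_of_le hlt (hmax jM)
  refine ⟨2 ^ m * (2 ^ (2 * m + k + 2) * 2), ?_⟩
  intro n
  have key : ∃ F : Finset (Finset (Fin n)), IsSaturated (ChainSum i) F ∧
      F.card ≤ 2 ^ m * (2 ^ (2 * m + k + 2) * 2) := by
    by_cases hnk : m + (2 * m + k + 2) + 1 ≤ n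
    · obtain ⟨v, rfl⟩ : ∃ v, n = m + ((2 * m + k + 2) + v) := ⟨n - (m + (2 * m + k + 2)), by omega⟩
      exact sat_of_blocks i k v hk (by omega) hmax j0 jm rfl hjm (hi jm)
    · obtain ⟨F, hF, -⟩ := exists_sat (ChainSum i) (∅ : Finset (Finset (Fin n))) univ
        (empty_subset _) (by
          rintro ⟨f, hf⟩
          exact absurd (hf ⟨j0, ⟨0, hk⟩⟩) (notMem_empty _)) (by
          intro G hG
          exact absurd (mem_univ G) hG)
      refine ⟨F, hF, ?_⟩
      have h1 : F.card ≤ 2 ^ n := by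
        have := card_le_univ F
        simpa using this
      have h2 : 2 ^ n ≤ 2 ^ (m + (2 * m + k + 2)) := Nat.pow_le_pow_right (by norm_num) (by omega)
      calc F.card ≤ 2 ^ (m + (2 * m + k + 2)) := h1.trans h2
        _ = 2 ^ m * (2 ^ (2 * m + k + 2) * 1) := by rw [pow_add, mul_one]
        _ ≤ _ := Nat.mul_le_mul_left _ (Nat.mul_le_mul_left _ (by norm_num))
  obtain ⟨F, hF, hc⟩ := key
  have h3 : satNum (ChainSum i) n ≤ F.card := Nat.sInf_le ⟨F, hF, rfl⟩
  exact ⟨⟨F, hF⟩, h3.trans hc⟩

end Pool.Agent.Results.MP_80cf42_co.Bounded
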